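import Pool.Agent.H87.SN.Targets

/-!
# Board snk, row CUT: radial cutoff functions
-/

set_option autoImplicit false

namespace Pool.Agent.H23.SN

open Pool.Agent.H87.SN
open MeasureTheory Metric Set Filter Topology
open scoped ContDiff RealInnerProductSpace

theorem pf_CUT : T_CUT := by
  intro n s t hs hst
  have hden : 0 < t ^ 2 - s ^ 2 := by nlinarith
  set ζ : E n → ℝ := fun x => Real.smoothTransition ((t ^ 2 - ‖x‖ ^ 2) / (t ^ 2 - s ^ 2)) with hζ
  have hζC : ContDiff ℝ ∞ ζ := by
    refine Real.smoothTransition.contDiff.comp ?_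
    exact (contDiff_const.sub (contDiff_norm_sq ℝ)).div_const _
  have hzero : ∀ x, t ≤ ‖x‖ → ζ x = 0 := by
    intro x hx
    refine Real.smoothTransition.zero_of_nonpos (div_nonpos_of_nonpos_of_nonneg ?_ hden.le)
    nlinarith [norm_nonneg x]
  have hcs : HasCompactSupport ζ := by
    refine HasCompactSupport.intro (isCompact_closedBall (0 : E n) t) fun x hx => ?_
    rw [mem_closedBall, dist_zero_right, not_le] at hx
    exact hzero x hx.le
  have hcd : Continuous (fderiv ℝ ζ) := hζC.continuous_fderiv (by simp)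
  obtain ⟨B, hB⟩ := (hcs.fderiv ℝ).exists_bound_of_continuous hcd
  refine ⟨ζ, (n + 1) * |B|, hζC, fun x => ⟨Real.smoothTransition.nonneg _,
    Real.smoothTransition.le_one _⟩, fun x y hxy => ?_, fun x hx => ?_, hzero, by positivity,
    fun x => ?_⟩
  · simp only [hζ, hxy]
  · refine Real.smoothTransition.one_of_one_le ?_
    rw [one_le_div hden]
    nlinarith [norm_nonneg x]
  · have hb : ∀ i : Fin n, ‖fderiv ℝ ζ x (bv i)‖ ^ 2 ≤ |B| ^ 2 := by
      intro i
      have h1 : ‖fderiv ℝ ζ x (bv i)‖ ≤ |B| := by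
        refine ((fderiv ℝ ζ x).le_opNorm _).trans ?_
        have h2 : ‖(bv i : E n)‖ = 1 := by simp [bv]
        rw [h2, mul_one]
        exact (hB x).trans (le_abs_self B)
      exact pow_le_pow_left₀ (norm_nonneg _) h1 2
    have h3 : gsq ζ x ≤ n * |B| ^ 2 := by
      unfold gsq nsq
      refine (Finset.sum_le_sum fun i _ => hb i).trans (le_of_eq ?_)
      rw [Finset.sum_const, Finset.card_univ, Fintype.card_fin, nsmul_eq_mul]
    refine h3.trans ?_
    have h4 : (0 : ℝ) ≤ n := Nat.cast_nonneg n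
    have h5 : (0 : ℝ) ≤ |B| ^ 2 := by positivity
    rw [mul_pow]
    refine mul_le_mul_of_nonneg_right ?_ h5
    nlinarith

end Pool.Agent.H23.SN
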