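import Pool.Agent.H87.SN.Targets

/-!
# Board snk, row JC1: the function `J` is of class `C^1`
-/

set_option autoImplicit false

namespace Pool.Agent.H23.SN

open Pool.Agent.H87.SN
open MeasureTheory Metric Set Filter Topology
open scoped ContDiff RealInnerProductSpace

/-- the integral over an interval of a function continuous in both variables -/
theorem continuousOn_integral {V : Type*} [NormedAddCommGroup V] [NormedSpace ℝ V]
    {U : Set (ℝ × ℝ)} (hU : IsOpen U) (G : ℝ × ℝ → ℝ → V)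
    (hG : ContinuousOn (Function.uncurry G) (U ×ˢ univ)) (a b : ℝ) :
    ContinuousOn (fun p => ∫ t in a..b, G p t) U := by
  have : LocallyCompactSpace U := hU.locallyCompactSpace
  rw [continuousOn_iff_continuous_domRestrict]
  have h : Continuous (Function.uncurry fun (p : U) (t : ℝ) => G p t) := by
    have h1 : Continuous fun q : U × ℝ => ((q.1 : ℝ × ℝ), q.2) := by fun_prop
    exact hG.comp_continuous h1 fun q => ⟨q.1.2, mem_univ _⟩
  exact intervalIntegral.continuous_parametric_intervalIntegral_of_continuous' h a b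

theorem hasFDerivAt_integral {U : Set (ℝ × ℝ)} (hU : IsOpen U) (F : ℝ × ℝ → ℝ → ℝ)
    (F' : ℝ × ℝ → ℝ → (ℝ × ℝ →L[ℝ] ℝ)) (hF : ContinuousOn (Function.uncurry F) (U ×ˢ univ))
    (hF' : ContinuousOn (Function.uncurry F') (U ×ˢ univ))
    (hd : ∀ p ∈ U, ∀ t, HasFDerivAt (fun q => F q t) (F' p t) p) (a b : ℝ) (p : ℝ × ℝ)
    (hp : p ∈ U) : HasFDerivAt (fun q => ∫ t in a..b, F q t) (∫ t in a..b, F' p t) p := by
  obtain ⟨ε, hε, hball⟩ := Metric.nhds_basis_closedBall.mem_iff.1 (hU.mem_nhds hp)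
  have hK : IsCompact (closedBall p ε ×ˢ uIcc a b) :=
    (isCompact_closedBall p ε).prod isCompact_uIcc
  obtain ⟨C, hC⟩ := hK.exists_bound_of_continuousOn (hF'.mono (prod_mono hball (subset_univ _)))
  have hcont : ∀ q ∈ U, Continuous (F q) := fun q hq =>
    hF.comp_continuous (f := fun t : ℝ => (q, t)) (by fun_prop) fun t => ⟨hq, mem_univ _⟩
  have hcont' : ∀ q ∈ U, Continuous (F' q) := fun q hq =>
    hF'.comp_continuous (f := fun t : ℝ => (q, t)) (by fun_prop) fun t => ⟨hq, mem_univ _⟩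
  refine intervalIntegral.hasFDerivAt_integral_of_dominated_of_fderiv_le (bound := fun _ => C)
    (s := closedBall p ε) (closedBall_mem_nhds p hε) ?_ ((hcont p hp).intervalIntegrable _ _)
    (hcont' p hp).aestronglyMeasurable ?_ intervalIntegrable_const ?_
  · filter_upwards [hU.mem_nhds hp] with q hq
    exact (hcont q hq).aestronglyMeasurable
  · exact Eventually.of_forall fun t ht q hq => hC (q, t) ⟨hq, uIoc_subset_uIcc ht⟩
  · exact Eventually.of_forall fun t _ q hq => hd q (hball hq) t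

theorem pf_JC1 (hKER : T_KER) : T_JC1 := by
  obtain ⟨hK0, hKC, hK1, hK2⟩ := hKER
  intro r hr hr0
  set U : Set (ℝ × ℝ) := {p | 0 < p.1} with hUdef
  have hU : IsOpen U := isOpen_lt continuous_const continuous_fst
  set K : ℝ × ℝ → ℝ := fun p => kerJ p.1 p.2 with hK
  have hKd : ∀ p ∈ U, HasFDerivAt K (fderiv ℝ K p) p := fun p hp =>
    ((hKC.differentiableOn one_ne_zero).differentiableAt (hU.mem_nhds hp)).hasFDerivAt
  have hK'c : ContinuousOn (fderiv ℝ K) U := hKC.continuousOn_fderiv_of_isOpen hU le_rfl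
  have hKc : ContinuousOn K U := hKC.continuousOn
  set F : ℝ × ℝ → ℝ → ℝ := fun p t => Real.sqrt (r t) * K (p - (0, t)) with hF
  set F' : ℝ × ℝ → ℝ → (ℝ × ℝ →L[ℝ] ℝ) := fun p t => Real.sqrt (r t) • fderiv ℝ K (p - (0, t))
    with hF'
  have hmem : ∀ p ∈ U, ∀ t : ℝ, p - (0, t) ∈ U := by
    intro p hp t
    change 0 < p.1 - 0
    rw [sub_zero]
    exact hp
  have hJ : ∀ s τ : ℝ, Jf r s τ = ∫ t in (-3 : ℝ)..3, F (s, τ) t := by
    intro s τ
    unfold Jf
    refine intervalIntegral.integral_congr fun t _ => ?_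
    simp only [hF, hK, Prod.mk_sub_mk, sub_zero]
  have hsq : Continuous fun t => Real.sqrt (r t) := Real.continuous_sqrt.comp hr
  have hmap : Continuous fun q : (ℝ × ℝ) × ℝ => q.1 - ((0 : ℝ), q.2) := by fun_prop
  have hFc : ContinuousOn (Function.uncurry F) (U ×ˢ univ) := by
    refine ContinuousOn.mul (hsq.comp continuous_snd).continuousOn ?_
    exact hKc.comp hmap.continuousOn fun q hq => hmem q.1 hq.1 q.2
  have hF'c : ContinuousOn (Function.uncurry F') (U ×ˢ univ) := by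
    refine ContinuousOn.smul (hsq.comp continuous_snd).continuousOn ?_
    exact hK'c.comp hmap.continuousOn fun q hq => hmem q.1 hq.1 q.2
  have hFd : ∀ p ∈ U, ∀ t, HasFDerivAt (fun q => F q t) (F' p t) p := by
    intro p hp t
    have h1 : HasFDerivAt (fun q : ℝ × ℝ => q - (0, t)) (ContinuousLinearMap.id ℝ (ℝ × ℝ)) p :=
      (hasFDerivAt_id p).sub_const _
    have h2 := (hKd _ (hmem p hp t)).comp p h1
    rw [ContinuousLinearMap.comp_id] at h2
    exact h2.const_mul (Real.sqrt (r t))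
  have hint := hasFDerivAt_integral hU F F' hFc hF'c hFd (-3) 3
  set D : ℝ × ℝ → (ℝ × ℝ →L[ℝ] ℝ) := fun p => ∫ t in (-3 : ℝ)..3, F' p t with hD
  have hDc : ContinuousOn D U := continuousOn_integral hU F' hF'c _ _
  have hJd : ∀ p ∈ U, HasFDerivAt (fun p : ℝ × ℝ => Jf r p.1 p.2) (D p) p := by
    intro p hp
    have h1 : (fun p : ℝ × ℝ => Jf r p.1 p.2) = fun q => ∫ t in (-3 : ℝ)..3, F q t := by
      funext q
      exact hJ q.1 q.2
    rw [h1]
    exact hint p hp
  have hcont : ∀ q ∈ U, Continuous (F q) := fun q hq =>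
    hFc.comp_continuous (f := fun t : ℝ => (q, t)) (by fun_prop) fun t => ⟨hq, mem_univ _⟩
  have hcont' : ∀ q ∈ U, Continuous (F' q) := fun q hq =>
    hF'c.comp_continuous (f := fun t : ℝ => (q, t)) (by fun_prop) fun t => ⟨hq, mem_univ _⟩
  have hlt : (-3 : ℝ) < 3 := by norm_num
  have hJpos : ∀ s τ : ℝ, 0 < s → 0 < Jf r s τ := by
    intro s τ hs
    rw [hJ]
    refine intervalIntegral.intervalIntegral_pos_of_pos ((hcont (s, τ) hs).intervalIntegrable _ _)
      (fun t => ?_) hlt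
    exact mul_pos (Real.sqrt_pos.2 (hr0 t)) (hK0 _ _ (by simpa using hs))
  -- the partial derivatives as integrals
  have hDapp : ∀ p ∈ U, ∀ v : ℝ × ℝ, D p v = ∫ t in (-3 : ℝ)..3, F' p t v := by
    intro p hp v
    exact ContinuousLinearMap.intervalIntegral_apply ((hcont' p hp).intervalIntegrable _ _) v
  -- pointwise bounds for the derivatives of the kernel
  have hpart1 : ∀ p ∈ U, |p.1 * fderiv ℝ K p (1, 0)| ≤ 3 / 2 * K p := by
    intro p hp
    have h1 : HasDerivAt (fun x => kerJ x p.2) (fderiv ℝ K p (1, 0)) p.1 := by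
      have h2 : HasDerivAt (fun x : ℝ => ((x, p.2) : ℝ × ℝ)) (1, 0) p.1 :=
        (hasDerivAt_id p.1).prodMk (hasDerivAt_const _ _)
      exact HasFDerivAt.comp_hasDerivAt (x := p.1) (f := fun x : ℝ => ((x, p.2) : ℝ × ℝ))
        (l := K) (hKd p hp) h2
    have h3 := hK1 p.1 p.2 hp
    rwa [h1.deriv] at h3
  have hpart2 : ∀ p ∈ U, |p.1 * fderiv ℝ K p (0, 1)| ≤ 3 / 20 * K p := by
    intro p hp
    have h1 : HasDerivAt (fun y => kerJ p.1 y) (fderiv ℝ K p (0, 1)) p.2 := by
      have h2 : HasDerivAt (fun y : ℝ => ((p.1, y) : ℝ × ℝ)) (0, 1) p.2 :=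
        (hasDerivAt_const _ _).prodMk (hasDerivAt_id p.2)
      exact HasFDerivAt.comp_hasDerivAt (x := p.2) (f := fun y : ℝ => ((p.1, y) : ℝ × ℝ))
        (l := K) (hKd p hp) h2
    have h3 := hK2 p.1 p.2 hp
    rwa [h1.deriv] at h3
  have hbound : ∀ (c : ℝ) (v : ℝ × ℝ), (∀ p ∈ U, |p.1 * fderiv ℝ K p v| ≤ c * K p) →
      ∀ s τ : ℝ, 0 < s → |s * D (s, τ) v| ≤ c * Jf r s τ := by
    intro c v hv s τ hs
    have hp : ((s, τ) : ℝ × ℝ) ∈ U := hs
    rw [hDapp _ hp, hJ, ← intervalIntegral.integral_const_mul, ← intervalIntegral.integral_const_mul]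
    refine (intervalIntegral.abs_integral_le_integral_abs hlt.le).trans ?_
    refine intervalIntegral.integral_mono_on hlt.le ?_ ?_ fun t _ => ?_
    · have h1 : Continuous fun t => F' (s, τ) t v := (hcont' _ hp).clm_apply continuous_const
      exact ((continuous_const.mul h1).abs).intervalIntegrable _ _
    · exact (continuous_const.mul (hcont _ hp)).intervalIntegrable _ _
    · have h1 := hv _ (hmem _ hp t)
      have h2 : ((s, τ) - (0, t) : ℝ × ℝ).1 = s := by simp
      rw [h2] at h1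
      have h3 : s * F' (s, τ) t v =
          Real.sqrt (r t) * (s * fderiv ℝ K ((s, τ) - (0, t)) v) := by
        simp only [hF', smul_apply, smul_eq_mul]
        ring
      rw [h3, abs_mul, abs_of_nonneg (Real.sqrt_nonneg _)]
      have h4 := mul_le_mul_of_nonneg_left h1 (Real.sqrt_nonneg (r t))
      refine h4.trans (le_of_eq ?_)
      simp only [hF]
      ring
  refine ⟨hJpos, ?_, ?_, ?_⟩
  · have h01 : (1 : WithTop ℕ∞) = 0 + 1 := by norm_num
    rw [h01, contDiffOn_succ_iff_fderiv_of_isOpen hU]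
    refine ⟨fun p hp => (hJd p hp).differentiableAt.differentiableWithinAt, by simp, ?_⟩
    rw [contDiffOn_zero]
    exact hDc.congr fun p hp => (hJd p hp).fderiv
  · intro s τ hs
    have hp : ((s, τ) : ℝ × ℝ) ∈ U := hs
    have h1 : HasDerivAt (fun x => Jf r x τ) (D (s, τ) (1, 0)) s := by
      have h2 : HasDerivAt (fun x : ℝ => ((x, τ) : ℝ × ℝ)) (1, 0) s :=
        (hasDerivAt_id s).prodMk (hasDerivAt_const _ _)
      exact HasFDerivAt.comp_hasDerivAt (x := s) (f := fun x : ℝ => ((x, τ) : ℝ × ℝ))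
        (l := fun p : ℝ × ℝ => Jf r p.1 p.2) (hJd _ hp) h2
    rw [h1.deriv]
    exact hbound _ _ hpart1 s τ hs
  · intro s τ hs
    have hp : ((s, τ) : ℝ × ℝ) ∈ U := hs
    have h1 : HasDerivAt (fun y => Jf r s y) (D (s, τ) (0, 1)) τ := by
      have h2 : HasDerivAt (fun y : ℝ => ((s, y) : ℝ × ℝ)) (0, 1) τ :=
        (hasDerivAt_const _ _).prodMk (hasDerivAt_id τ)
      exact HasFDerivAt.comp_hasDerivAt (x := τ) (f := fun y : ℝ => ((s, y) : ℝ × ℝ))
        (l := fun p : ℝ × ℝ => Jf r p.1 p.2) (hJd _ hp) h2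
    rw [h1.deriv]
    exact hbound _ _ hpart2 s τ hs

end Pool.Agent.H23.SN
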