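import Pool.Agent.H87.SN.Targets

/-!
# Board snk, row POL: polar coordinates in the first two variables
-/

set_option autoImplicit false

namespace Pool.Agent.H23.SN

open Pool.Agent.H87.SN
open MeasureTheory Metric Set Filter Topology
open scoped ContDiff RealInnerProductSpace

/-- radial functions in the plane -/
theorem radial (G : ℝ → ENNReal) (hG : Measurable G) :
    ∫⁻ p : ℝ × ℝ, G (Real.sqrt (p.1 ^ 2 + p.2 ^ 2)) =
      ∫⁻ s in Ioi (0 : ℝ), ENNReal.ofReal (2 * Real.pi * s) * G s := by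
  rw [← lintegral_comp_polarCoord_symm]
  have h1 : ∫⁻ p : ℝ × ℝ in polarCoord.target, ENNReal.ofReal p.1 •
      G (Real.sqrt ((polarCoord.symm p).1 ^ 2 + (polarCoord.symm p).2 ^ 2)) =
      ∫⁻ p : ℝ × ℝ in polarCoord.target, ENNReal.ofReal p.1 * G p.1 := by
    refine setLIntegral_congr_fun polarCoord.open_target.measurableSet fun p hp => ?_
    rw [polarCoord_target] at hp
    have hp0 : 0 < p.1 := hp.1
    have e1 : (polarCoord.symm p).1 ^ 2 + (polarCoord.symm p).2 ^ 2 = p.1 ^ 2 := by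
      rw [polarCoord_symm_apply]
      simp only
      nlinarith [Real.sin_sq_add_cos_sq p.2]
    simp only [e1, Real.sqrt_sq hp0.le, smul_eq_mul]
  rw [h1, polarCoord_target, Measure.volume_eq_prod, ← Measure.prod_restrict,
    lintegral_prod _ (by fun_prop)]
  refine lintegral_congr fun s => ?_
  simp only
  rw [lintegral_const, Measure.restrict_apply MeasurableSet.univ, univ_inter, Real.volume_Ioo]
  have e2 : ENNReal.ofReal (2 * Real.pi * s) = ENNReal.ofReal (2 * Real.pi) * ENNReal.ofReal s :=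
    ENNReal.ofReal_mul (by positivity)
  have e3 : Real.pi - -Real.pi = 2 * Real.pi := by ring
  rw [e2, e3]
  ring

theorem measurable_rho (d : ℕ) : Measurable (rho : E (d + 2) → ℝ) := by
  unfold rho
  fun_prop

/-- two coordinates are split off -/
theorem split_two (d : ℕ) (h : (Fin (d + 2) → ℝ) → ENNReal) (hh : Measurable h) :
    ∫⁻ y, h y = ∫⁻ w : Fin d → ℝ, ∫⁻ p : ℝ × ℝ, h (Fin.cons p.1 (Fin.cons p.2 w)) := by
  have hsym : ∀ (n : ℕ) (q : ℝ × (Fin n → ℝ)),
      (MeasurableEquiv.piFinSuccAbove (fun _ : Fin (n + 1) => ℝ) 0).symm q =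
        (Fin.cons q.1 q.2 : Fin (n + 1) → ℝ) := fun n q => Fin.insertNth_zero' q.1 q.2
  have hm : ∀ n : ℕ, Measurable fun q : ℝ × (Fin n → ℝ) =>
      (Fin.cons q.1 q.2 : Fin (n + 1) → ℝ) := by
    intro n
    have h0 := (MeasurableEquiv.piFinSuccAbove (fun _ : Fin (n + 1) => ℝ) 0).symm.measurable
    rwa [funext (hsym n)] at h0
  have key : ∀ (n : ℕ) (g : (Fin (n + 1) → ℝ) → ENNReal), Measurable g →
      ∫⁻ y, g y = ∫⁻ a : ℝ, ∫⁻ w : Fin n → ℝ, g (Fin.cons a w) := by
    intro n g hg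
    have hmp := (volume_preserving_piFinSuccAbove (fun _ : Fin (n + 1) => ℝ) 0).symm
    rw [← hmp.lintegral_comp hg, lintegral_congr (fun q => congrArg g (hsym n q)),
      Measure.volume_eq_prod, lintegral_prod (fun q : ℝ × (Fin n → ℝ) => g (Fin.cons q.1 q.2))
      (hg.comp (hm n)).aemeasurable]
  rw [key (d + 1) h hh]
  have h2 : ∀ a : ℝ, ∫⁻ w : Fin (d + 1) → ℝ, h (Fin.cons a w) =
      ∫⁻ b : ℝ, ∫⁻ w : Fin d → ℝ, h (Fin.cons a (Fin.cons b w)) := fun a =>
    key d (fun w => h (Fin.cons a w)) (hh.comp ((hm (d + 1)).comp (measurable_const.prodMk measurable_id)))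
  rw [lintegral_congr h2]
  have hF : Measurable fun q : (ℝ × ℝ) × (Fin d → ℝ) =>
      h (Fin.cons q.1.1 (Fin.cons q.1.2 q.2)) := by
    refine hh.comp ((hm (d + 1)).comp (Measurable.prodMk (by fun_prop) ?_))
    exact (hm d).comp (Measurable.prodMk (by fun_prop) (by fun_prop))
  rw [← lintegral_prod (μ := (volume : Measure ℝ)) (ν := (volume : Measure ℝ))
    (fun p : ℝ × ℝ => ∫⁻ w : Fin d → ℝ, h (Fin.cons p.1 (Fin.cons p.2 w)))
    (Measurable.lintegral_prod_right hF).aemeasurable, ← Measure.volume_eq_prod]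
  exact lintegral_lintegral_swap hF.aemeasurable

theorem pf_POL : T_POL := by
  intro d f hf
  have hrho := measurable_rho d
  have hzp : Measurable (zp : E (d + 2) → E d) := by
    unfold zp
    fun_prop
  have hmeas : Measurable fun x : E (d + 2) => f (rho x, zp x) := hf.comp (hrho.prodMk hzp)
  rw [← (PiLp.volume_preserving_toLp (Fin (d + 2))).lintegral_comp hmeas,
    split_two d (fun y => f (rho (WithLp.toLp 2 y : E (d + 2)), zp (WithLp.toLp 2 y : E (d + 2))))
      (hmeas.comp (by fun_prop))]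
  have h1 : ∀ w : Fin d → ℝ, ∫⁻ p : ℝ × ℝ,
      f (rho (WithLp.toLp 2 (Fin.cons p.1 (Fin.cons p.2 w)) : E (d + 2)),
        zp (WithLp.toLp 2 (Fin.cons p.1 (Fin.cons p.2 w)) : E (d + 2))) =
      ∫⁻ s in Ioi (0 : ℝ), ENNReal.ofReal (2 * Real.pi * s) * f (s, (WithLp.toLp 2 w : E d)) := by
    intro w
    rw [← radial (fun s => f (s, (WithLp.toLp 2 w : E d))) (hf.comp (by fun_prop))]
    refine lintegral_congr fun p => ?_
    rfl
  rw [lintegral_congr h1]
  exact (PiLp.volume_preserving_toLp (Fin d)).lintegral_comp (f := fun z : E d =>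
    ∫⁻ s in Ioi (0 : ℝ), ENNReal.ofReal (2 * Real.pi * s) * f (s, z))
    (Measurable.lintegral_prod_left' (f := fun q : ℝ × E d =>
      ENNReal.ofReal (2 * Real.pi * q.1) * f (q.1, q.2)) (by fun_prop))

end Pool.Agent.H23.SN
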